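import Pool.Agent.W206.YP.Stm

/-!
# Zilber-Pink for `Y(1)^n`: the part RES (resultants)
-/

set_option autoImplicit false

namespace Pool.Agent.W664.YP.RES

open MvPolynomial

theorem core (f g : Polynomial ℂ) (hf : 0 < f.natDegree) : ∃ R : MvPolynomial (Fin 2) ℂ,
    ∀ y z : ℂ, eval ![y, z] R = 0 ↔ ∃ s : ℂ, f.eval s = z ∧ g.eval s = y := by
  classical
  set P : Polynomial (MvPolynomial (Fin 2) ℂ) :=
    f.map (C : ℂ →+* MvPolynomial (Fin 2) ℂ) - Polynomial.C (X 1) with hP
  set Q : Polynomial (MvPolynomial (Fin 2) ℂ) :=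
    g.map (C : ℂ →+* MvPolynomial (Fin 2) ℂ) - Polynomial.C (X 0) with hQ
  refine ⟨Polynomial.resultant P Q f.natDegree g.natDegree, fun y z => ?_⟩
  have hCC : ((eval ![y, z] : MvPolynomial (Fin 2) ℂ →+* ℂ).comp C) = RingHom.id ℂ := by
    ext x <;> simp
  have h1 : P.map (eval ![y, z]) = f - Polynomial.C z := by
    rw [hP, Polynomial.map_sub, Polynomial.map_map, hCC, Polynomial.map_id, Polynomial.map_C]
    simp
  have h2 : Q.map (eval ![y, z]) = g - Polynomial.C y := by
    rw [hQ, Polynomial.map_sub, Polynomial.map_map, hCC, Polynomial.map_id, Polynomial.map_C]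
    simp
  rw [← Polynomial.resultant_map_map, h1, h2]
  have hd : (f - Polynomial.C z).natDegree = f.natDegree := Polynomial.natDegree_sub_C
  have hdg : (g - Polynomial.C y).natDegree ≤ g.natDegree := by
    rw [Polynomial.natDegree_sub_C]
  have h0 : f - Polynomial.C z ≠ 0 := by
    intro h
    rw [h] at hd
    simp at hd
    omega
  have key := Polynomial.resultant_eq_prod_eval (f - Polynomial.C z) (g - Polynomial.C y)
    g.natDegree hdg (IsAlgClosed.splits _)
  rw [hd] at key
  rw [key, mul_eq_zero]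
  constructor
  · rintro (h | h)
    · exact absurd h (pow_ne_zero _ (Polynomial.leadingCoeff_ne_zero.2 h0))
    · rw [Multiset.prod_eq_zero_iff, Multiset.mem_map] at h
      obtain ⟨s, hs, hs'⟩ := h
      rw [Polynomial.mem_roots h0, Polynomial.IsRoot.def] at hs
      refine ⟨s, ?_, ?_⟩
      · simpa [sub_eq_zero] using hs
      · simpa [sub_eq_zero] using hs'
  · rintro ⟨s, hs, hs'⟩
    right
    rw [Multiset.prod_eq_zero_iff, Multiset.mem_map]
    refine ⟨s, ?_, ?_⟩
    · rw [Polynomial.mem_roots h0, Polynomial.IsRoot.def]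
      simp [hs]
    · simp [hs']

theorem main : Pool.Agent.W206.YP.S_RES := fun f g hf => core f g hf

end Pool.Agent.W664.YP.RES
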